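import Pool.Agent.T6.H5.CV.Main

/-!
# The covariances of the unfolded gaps

Assume the Riemann hypothesis.  Let `δ_n` be the unfolded gaps of the zeta zeros (mean value `1`) and
`C_N(j)` the mean value over `n ≤ N` of `(δ_n - 1) (δ_{n+j} - 1)`.  For the spacings of GUE matrices
the covariances satisfy the sum rule `C(0) + 2 ∑_{j ≥ 1} C(j) = 0` and `C(j) ~ - 1 / (2 π² j²)`.  We
prove that the covariances of the zeta gaps have both properties when they are tested against
arbitrary smooth functions.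
-/

set_option autoImplicit false

open Filter

namespace Pool.Agent.Results.MP_7eacff_nt.GapCovariances

/-- multiplicity of `s` as a zero of the Riemann zeta function (order of vanishing at `s`) -/
noncomputable def zmult (s : ℂ) : ℕ := analyticOrderNatAt riemannZeta s

/-- the number of nontrivial zeros of `ζ` with ordinate in `(0, t]`, with multiplicity -/
noncomputable def NZ (t : ℝ) : ℕ :=
  ∑ᶠ s ∈ {s : ℂ | riemannZeta s = 0 ∧ 0 < s.re ∧ s.re < 1 ∧ 0 < s.im ∧ s.im ≤ t}, zmult s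

/-- for `n ≥ 1`: the `n`-th positive ordinate `γ n` of a nontrivial zero of `ζ`, the ordinates being
listed in nondecreasing order and repeated according to multiplicity -/
noncomputable def γ (n : ℕ) : ℝ := sInf {t : ℝ | n ≤ NZ t}

/-- the unfolded consecutive gaps `δ_n = (γ_{n+1} - γ_n) / 2π · log (γ_n / 2π)` -/
noncomputable def δ (n : ℕ) : ℝ := (γ (n + 1) - γ n) / (2 * Real.pi) * Real.log (γ n / (2 * Real.pi))

/-- the covariance `C_N(j)` of the unfolded gaps `δ_n` and `δ_{n+j}`, `n` uniform in `1, …, N` -/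
noncomputable def C (N j : ℕ) : ℝ :=
  (1 / N : ℝ) * ∑ n ∈ Finset.Icc 1 N, (δ n - 1) * (δ (n + j) - 1)

theorem RHs_of (RH : RiemannHypothesis) : SP.RHs := by
  intro s h1 h2 h0
  apply RH s h0
  · rintro ⟨k, hk⟩
    have := congrArg Complex.re hk
    simp at this
    have hk0 : (0 : ℝ) ≤ k := Nat.cast_nonneg k
    linarith
  · intro h; rw [h] at h2; simp at h2

/-- On the Riemann hypothesis: for every twice continuously differentiable function `φ` with
`φ(1) = 0`,

  `R (φ(0) C_N(0) + 2 ∑_{1 ≤ j < R} φ(j/R) C_N(j)) = - (φ'(0) / π² + o(1)) log R`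

as `R → ∞`, uniformly in the `N` with `R log R ≤ log N`.  With `φ(x) = 1 - x` this is the sum rule
`C_N(0) + 2 ∑_{j < R} (1 - j/R) C_N(j) ~ log R / (π² R)`; with `φ(x) = x (1 - x)` it is
`∑_{j < R} (1 - j/R) j C_N(j) ~ - log R / (2 π²)`, the value which `C(j) ~ - 1 / (2 π² j²)` gives. -/
theorem result (RH : RiemannHypothesis) (φ : ℝ → ℝ) (hφ : ContDiff ℝ 2 φ) (h1 : φ 1 = 0)
    (ε : ℝ) (hε : 0 < ε) :
    ∃ R₀ : ℕ, ∀ R : ℕ, R₀ ≤ R → ∀ N : ℕ, R * Real.log R ≤ Real.log N →
      |R * (φ 0 * C N 0 + 2 * ∑ j ∈ Finset.Ico 1 R, φ ((j : ℝ) / R) * C N j) +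
        deriv φ 0 / Real.pi ^ 2 * Real.log R| ≤ ε * Real.log R := by
  have hC : ∀ N j : ℕ, C N j = Pool.Agent.T6.H5.CV.Cv N j := by
    intro N j
    unfold C Pool.Agent.T6.H5.CV.Cv
    rw [one_div]
    rfl
  obtain ⟨R0, h⟩ := Pool.Agent.T6.H5.CV.covs (RHs_of RH) φ hφ h1 ε hε
  refine ⟨R0, fun R hR N hN => ?_⟩
  simp only [hC]
  exact h R hR N hN

end Pool.Agent.Results.MP_7eacff_nt.GapCovariances
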