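import Pool.Agent.T6.H5.JV.Main

/-!
# The joint law of the sums of consecutive gaps: a logarithmically correlated Gaussian field

Assume the Riemann hypothesis.  Let `δ_n` be the unfolded gaps of the zeta zeros and
`S_b(n) = δ_n + … + δ_{n+b-1}` the distance from the `n`-th zero to its `b`-th neighbour.  For
`b_1, …, b_k ≤ r`, `r log r ≤ log N` and `r → ∞`, the vector

  `π (S_{b_i}(n) - b_i) / √(log r)`,  `i = 1, …, k`,

`n` uniform in `1, …, N`, converges in law and with all mixed moments to the centred Gaussian vector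
with covariances `(log b_i + log b_j - log |b_i - b_j|) / (2 log r)` (the last logarithm being read as
`0` when `b_i = b_j`), as for the eigenvalues of GUE matrices.  For instance the sums over `k`
adjacent blocks of `r` gaps converge to `(Y_{j+1} - Y_j) / √2` with independent standard normal
`Y_j`, and the sums of `r^s`, `0 < s ≤ 1`, gaps to a Gaussian process with variance `s` and
covariances `min(s, s') / 2`.
-/

set_option autoImplicit false

open Filter Topology MeasureTheory ProbabilityTheory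

namespace Pool.Agent.Results.MP_7eacff_nt.GapSumsJointLaw

/-- multiplicity of `s` as a zero of the Riemann zeta function (order of vanishing at `s`) -/
noncomputable def zmult (s : ℂ) : ℕ := analyticOrderNatAt riemannZeta s

/-- the number of nontrivial zeros of `ζ` with ordinate in `(0, t]`, with multiplicity -/
noncomputable def NZ (t : ℝ) : ℕ :=
  ∑ᶠ s ∈ {s : ℂ | riemannZeta s = 0 ∧ 0 < s.re ∧ s.re < 1 ∧ 0 < s.im ∧ s.im ≤ t}, zmult s

/-- for `n ≥ 1`: the `n`-th positive ordinate `γ n` of a nontrivial zero of `ζ`, the ordinates being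
listed in nondecreasing order and repeated according to multiplicity -/
noncomputable def γ (n : ℕ) : ℝ := sInf {t : ℝ | n ≤ NZ t}

/-- the unfolded consecutive gaps `δ_n = (γ_{n+1} - γ_n) / 2π · log (γ_n / 2π)` -/
noncomputable def δ (n : ℕ) : ℝ := (γ (n + 1) - γ n) / (2 * Real.pi) * Real.log (γ n / (2 * Real.pi))

/-- the sum `δ_n + δ_{n+1} + … + δ_{n+b-1}` of `b` consecutive unfolded gaps; its mean value is `b` -/
noncomputable def S (b n : ℕ) : ℝ := ∑ i ∈ Finset.range b, δ (n + i)

/-- the vector with the coordinates `π (S_{b_i}(n) - b_i) / √(log r)` -/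
noncomputable def X {k : ℕ} (r : ℕ) (b : Fin k → ℕ) (n : ℕ) : EuclideanSpace ℝ (Fin k) :=
  WithLp.toLp 2 fun i => Real.pi * (S (b i) n - b i) / Real.sqrt (Real.log r)

/-- the matrix with the entries `(lam_i + lam_j - Lam_{ij}) / 2` -/
noncomputable def Sigma {k : ℕ} (lam : Fin k → ℝ) (Lam : Fin k → Fin k → ℝ) :
    Matrix (Fin k) (Fin k) ℝ :=
  Matrix.of fun i j => (lam i + lam j - Lam i j) / 2

theorem RHs_of (RH : RiemannHypothesis) : SP.RHs := by
  intro s h1 h2 h0
  apply RH s h0
  · rintro ⟨k, hk⟩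
    have := congrArg Complex.re hk
    simp at this
    have hk0 : (0 : ℝ) ≤ k := Nat.cast_nonneg k
    linarith
  · intro h; rw [h] at h2; simp at h2

/-- On the Riemann hypothesis: let `r_m → ∞` and `r_m log r_m ≤ log N_m`, let
`1 ≤ b_{m,1}, …, b_{m,k} ≤ r_m` be such that the limits `lam_i = lim log b_{m,i} / log r_m` and
`Lam_{ij} = lim log |b_{m,i} - b_{m,j}| / log r_m` exist (`log 0 = 0`; by compactness this holds along
a subsequence of any sequence).  Then the matrix with the entries `(lam_i + lam_j - Lam_{ij}) / 2` is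
positive semidefinite, and for every continuous function `f` of at most polynomial growth the mean
value over `n ≤ N_m` of `f` at the vector `(π (S_{b_{m,i}}(n) - b_{m,i}) / √(log r_m))_i` converges
to the expectation of `f` at the centred Gaussian vector with this covariance matrix. -/
theorem result (RH : RiemannHypothesis) {k : ℕ} (r N : ℕ → ℕ) (b : ℕ → Fin k → ℕ)
    (hr : Tendsto r atTop atTop) (hN : ∀ m, 1 ≤ N m)
    (hrN : ∀ m, (r m : ℝ) * Real.log (r m) ≤ Real.log (N m))
    (hb : ∀ m i, 1 ≤ b m i ∧ b m i ≤ r m)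
    (lam : Fin k → ℝ) (Lam : Fin k → Fin k → ℝ)
    (h1 : ∀ i, Tendsto (fun m => Real.log (b m i) / Real.log (r m)) atTop (𝓝 (lam i)))
    (h2 : ∀ i j, Tendsto (fun m => Real.log |(b m i : ℝ) - b m j| / Real.log (r m)) atTop
      (𝓝 (Lam i j))) :
    (Sigma lam Lam).PosSemidef ∧
    ∀ f : EuclideanSpace ℝ (Fin k) → ℝ, Continuous f →
      (∃ (A : ℝ) (p : ℕ), ∀ x, |f x| ≤ A * (1 + ‖x‖) ^ p) →
      Tendsto (fun m => (1 / N m : ℝ) * ∑ n ∈ Finset.Icc 1 (N m), f (X (r m) (b m) n)) atTop
        (𝓝 (∫ x, f x ∂(multivariateGaussian 0 (Sigma lam Lam)))) := by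
  have hX : ∀ (r : ℕ) (b : Fin k → ℕ) (n : ℕ), X r b n = Pool.Agent.T6.H5.JV.XV r b n := by
    intro r b n
    unfold X Pool.Agent.T6.H5.JV.XV Pool.Agent.Y743.CL.lm
    congr 1
    funext i
    have e : S (b i) n = Pool.Agent.R320.CL.SS (b i) n := rfl
    rw [e]
    rcases eq_or_ne (Real.sqrt (Real.log r)) 0 with h | h
    · rw [h, zero_div, div_zero, div_zero]
    · field_simp
  have hS : Sigma lam Lam = Pool.Agent.T6.H5.JV.Sg lam Lam := rfl
  refine ⟨Pool.Agent.T6.H5.JV.Sg_psd r N hN b hr hrN hb lam Lam h1 h2, fun f hf ⟨A, p, hfA⟩ => ?_⟩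
  have h := Pool.Agent.T6.H5.JV.jointlaw (RHs_of RH) r N hN b hr hrN hb lam Lam h1 h2 f hf A p hfA
  rw [hS]
  refine h.congr fun m => ?_
  rw [one_div]
  congr 1
  refine Finset.sum_congr rfl fun n _ => ?_
  rw [hX]

end Pool.Agent.Results.MP_7eacff_nt.GapSumsJointLaw
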