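import Pool.Agent.T6.H5.TL.L

/-!
# Gaussian tails, with the sharp constant, of the sums of consecutive gaps

Assume the Riemann hypothesis.  Let `δ_n` be the unfolded gaps of the zeta zeros and
`S_r(n) = δ_n + … + δ_{n+r-1}` the distance from the `n`-th zero to its `r`-th neighbour, whose mean
value is `r`.  The typical size of `S_r(n) - r` is `√(log r) / π`.  We determine the logarithm of the
proportion of the `n` with a large deviation:

  `log P(S_r - r ≥ V) ~ log P(S_r - r ≤ -V) ~ log P(|S_r - r| ≥ V) ~ - π² V² / (2 log r)`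

(`P` the proportion of the `n ≤ N` as `N → ∞`, then `r → ∞`), uniformly for `V` between
`C √(log r log log r)` and `A log r`, for every fixed `A`.  This is the decay of the tails of the
corresponding sums for the eigenvalues of GUE matrices.
-/

set_option autoImplicit false

open Filter Topology MeasureTheory

namespace Pool.Agent.Results.MP_7eacff_nt.GaussianTails

/-- multiplicity of `s` as a zero of the Riemann zeta function (order of vanishing at `s`) -/
noncomputable def zmult (s : ℂ) : ℕ := analyticOrderNatAt riemannZeta s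

/-- the number of nontrivial zeros of `ζ` with ordinate in `(0, t]`, with multiplicity -/
noncomputable def NZ (t : ℝ) : ℕ :=
  ∑ᶠ s ∈ {s : ℂ | riemannZeta s = 0 ∧ 0 < s.re ∧ s.re < 1 ∧ 0 < s.im ∧ s.im ≤ t}, zmult s

/-- for `n ≥ 1`: the `n`-th positive ordinate `γ n` of a nontrivial zero of `ζ`, the ordinates being
listed in nondecreasing order and repeated according to multiplicity -/
noncomputable def γ (n : ℕ) : ℝ := sInf {t : ℝ | n ≤ NZ t}

/-- the unfolded consecutive gaps `δ_n = (γ_{n+1} - γ_n) / 2π · log (γ_n / 2π)` -/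
noncomputable def δ (n : ℕ) : ℝ := (γ (n + 1) - γ n) / (2 * Real.pi) * Real.log (γ n / (2 * Real.pi))

/-- the sum `δ_n + δ_{n+1} + … + δ_{n+r-1}` of `r` consecutive unfolded gaps; its mean value is `r` -/
noncomputable def S (r n : ℕ) : ℝ := ∑ i ∈ Finset.range r, δ (n + i)

/-- the Gaussian exponent `π² V² / (2 log r)`, that is `V² / 2` over the variance `log r / π²` -/
noncomputable def G (r : ℕ) (V : ℝ) : ℝ := Real.pi ^ 2 * V ^ 2 / (2 * Real.log r)

theorem RHs_of (RH : RiemannHypothesis) : SP.RHs := by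
  intro s h1 h2 h0
  apply RH s h0
  · rintro ⟨k, hk⟩
    have := congrArg Complex.re hk
    simp at this
    have hk0 : (0 : ℝ) ≤ k := Nat.cast_nonneg k
    linarith
  · intro h; rw [h] at h2; simp at h2

open Classical in
/-- On the Riemann hypothesis: for every `0 < ε ≤ 1/2` and `A ≥ 1` there is `r₀` such that for every
`r ≥ r₀`, every `V > 0` with `(40/ε) log r log log r ≤ V²` and `V ≤ A log r`, and all large `N`,
* `|S_r(n) - r| ≥ V` for at most `exp(-(1 - ε) π² V² / (2 log r)) N` of the `n ≤ N`,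
* `S_r(n) - r ≥ V` for at least `exp(-(1 + ε) π² V² / (2 log r)) N` of the `n ≤ N`,
* `S_r(n) - r ≤ -V` for at least `exp(-(1 + ε) π² V² / (2 log r)) N` of the `n ≤ N`. -/
theorem result (RH : RiemannHypothesis) (ε A : ℝ) (hε : 0 < ε) (hε1 : ε ≤ 1 / 2) (hA : 1 ≤ A) :
    ∃ r₀ : ℕ, ∀ r : ℕ, r₀ ≤ r → ∀ V : ℝ, 0 < V →
    40 / ε * (Real.log r * Real.log (Real.log r)) ≤ V ^ 2 → V ≤ A * Real.log r →
    ∃ N₀ : ℕ, ∀ N : ℕ, N₀ ≤ N →
      (((Finset.Icc 1 N).filter fun n => V ≤ |S r n - r|).card : ℝ) ≤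
        Real.exp (-((1 - ε) * G r V)) * N ∧
      Real.exp (-((1 + ε) * G r V)) * N ≤
        (((Finset.Icc 1 N).filter fun n => V ≤ S r n - r).card : ℝ) ∧
      Real.exp (-((1 + ε) * G r V)) * N ≤
        (((Finset.Icc 1 N).filter fun n => S r n - r ≤ -V).card : ℝ) := by
  obtain ⟨r0, -, hr0⟩ := Pool.Agent.T6.H5.TL.allT (RHs_of RH) hε hε1 hA
  exact ⟨r0, fun r hr V hV h1 h2 => hr0 r hr V hV h1 h2⟩

end Pool.Agent.Results.MP_7eacff_nt.GaussianTails
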