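import Pool.Agent.T6.H5.MX.LL

/-!
# The maximum of the deviations of the sums of consecutive gaps

Assume the Riemann hypothesis.  Let `δ_n` be the unfolded gaps of the zeta zeros and
`S_m(n) = δ_n + … + δ_{n+m-1}` the distance from the `n`-th zero to its `m`-th neighbour, whose mean
value is `m`.  For all but a small proportion of the zeros, the largest and the smallest of the
deviations `S_m(n) - m`, `1 ≤ m ≤ r`, are `(1/π + o(1)) log r` and `-(1/π + o(1)) log r`:

  `max_{m ≤ r} (S_m(n) - m) / log r → 1/π`,   `min_{m ≤ r} (S_m(n) - m) / log r → -1/π`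

in probability (`n` uniform in `1, …, N`, first `N → ∞`, then `r → ∞`).  A single deviation has size
`√(log r) / π`, so the extremes are those of a logarithmically correlated Gaussian field, as for the
eigenvalues of random unitary matrices.
-/

set_option autoImplicit false

open Filter Topology MeasureTheory

namespace Pool.Agent.Results.MP_7eacff_nt.MaximumOfDeviations

/-- multiplicity of `s` as a zero of the Riemann zeta function (order of vanishing at `s`) -/
noncomputable def zmult (s : ℂ) : ℕ := analyticOrderNatAt riemannZeta s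

/-- the number of nontrivial zeros of `ζ` with ordinate in `(0, t]`, with multiplicity -/
noncomputable def NZ (t : ℝ) : ℕ :=
  ∑ᶠ s ∈ {s : ℂ | riemannZeta s = 0 ∧ 0 < s.re ∧ s.re < 1 ∧ 0 < s.im ∧ s.im ≤ t}, zmult s

/-- for `n ≥ 1`: the `n`-th positive ordinate `γ n` of a nontrivial zero of `ζ`, the ordinates being
listed in nondecreasing order and repeated according to multiplicity -/
noncomputable def γ (n : ℕ) : ℝ := sInf {t : ℝ | n ≤ NZ t}

/-- the unfolded consecutive gaps `δ_n = (γ_{n+1} - γ_n) / 2π · log (γ_n / 2π)` -/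
noncomputable def δ (n : ℕ) : ℝ := (γ (n + 1) - γ n) / (2 * Real.pi) * Real.log (γ n / (2 * Real.pi))

/-- the sum `δ_n + δ_{n+1} + … + δ_{n+m-1}` of `m` consecutive unfolded gaps; its mean value is `m` -/
noncomputable def S (m n : ℕ) : ℝ := ∑ i ∈ Finset.range m, δ (n + i)

/-- the largest and the smallest of the deviations `S_m(n) - m`, `1 ≤ m ≤ r`, agree with
`± (1/π) log r` up to `ε log r` -/
def Extremes (ε : ℝ) (r n : ℕ) : Prop :=
  (∀ m : ℕ, m ≤ r → |S m n - m| ≤ (1 / Real.pi + ε) * Real.log r) ∧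
  (∃ m : ℕ, 1 ≤ m ∧ m ≤ r ∧ (1 / Real.pi - ε) * Real.log r ≤ S m n - m) ∧
  ∃ m : ℕ, 1 ≤ m ∧ m ≤ r ∧ S m n - m ≤ -((1 / Real.pi - ε) * Real.log r)

theorem RHs_of (RH : RiemannHypothesis) : SP.RHs := by
  intro s h1 h2 h0
  apply RH s h0
  · rintro ⟨k, hk⟩
    have := congrArg Complex.re hk
    simp at this
    have hk0 : (0 : ℝ) ≤ k := Nat.cast_nonneg k
    linarith
  · intro h; rw [h] at h2; simp at h2

open Classical in
/-- On the Riemann hypothesis: for every `ε > 0` there is `r₀` such that for every `r ≥ r₀` and all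
large `N`, all but at most `ε N` of the indices `n ≤ N` have the following property: the deviations
`S_m(n) - m`, `m ≤ r`, are all at most `(1/π + ε) log r` in absolute value, one of them (with
`1 ≤ m ≤ r`) is at least `(1/π - ε) log r`, and one of them is at most `-(1/π - ε) log r`. -/
theorem result (RH : RiemannHypothesis) (ε : ℝ) (hε : 0 < ε) :
    ∃ r₀ : ℕ, ∀ r : ℕ, r₀ ≤ r → ∃ N₀ : ℕ, ∀ N : ℕ, N₀ ≤ N →
      (((Finset.Icc 1 N).filter fun n => ¬ Extremes ε r n).card : ℝ) ≤ ε * N := by
  obtain ⟨r0, hr0⟩ := Pool.Agent.T6.H5.MX.allM (RHs_of RH) (ε := min ε (1 / 2)) (by positivity)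
    (min_le_right _ _)
  refine ⟨max r0 1, fun r hr => ?_⟩
  obtain ⟨N0, hN0⟩ := hr0 r ((le_max_left _ _).trans hr)
  refine ⟨N0, fun N hN => ?_⟩
  have hlog : 0 ≤ Real.log r := Real.log_nonneg (by exact_mod_cast (le_max_right r0 1).trans hr)
  have hm : min ε (1 / 2) ≤ ε := min_le_left _ _
  refine le_trans ?_ ((hN0 N hN).trans (mul_le_mul_of_nonneg_right hm (Nat.cast_nonneg _)))
  have hsub : ((Finset.Icc 1 N).filter fun n => ¬ Extremes ε r n) ⊆ (Finset.Icc 1 N).filter fun n =>
      ¬ Pool.Agent.T6.H5.MX.Gd r ((1 / Real.pi + min ε (1 / 2)) * Real.log r)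
        ((1 / Real.pi - min ε (1 / 2)) * Real.log r) n := by
    intro n hn
    rw [Finset.mem_filter] at hn ⊢
    refine ⟨hn.1, fun h => hn.2 ?_⟩
    have h' := Pool.Agent.T6.H5.MX.Gd_mono (D2 := (1 / Real.pi + ε) * Real.log r)
      (v2 := (1 / Real.pi - ε) * Real.log r) h
      (mul_le_mul_of_nonneg_right (by linarith) hlog) (mul_le_mul_of_nonneg_right (by linarith) hlog)
    exact h'
  exact_mod_cast Finset.card_le_card hsub

end Pool.Agent.Results.MP_7eacff_nt.MaximumOfDeviations
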